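import Pool.Agent.Helper63.TS.Main
import Pool.Agent.Helper89.TC.Main
import Pool.Agent.Helper63.TK.Final
import Pool.Agent.Helper30.TK2.Prog

/-!
# The Dynamical Mordell-Lang property over function fields, all endomorphisms of the plane
-/

set_option autoImplicit false

namespace Pool.Agent.Helper63.TF

open MvPolynomial
open Pool.Agent.Helper16 (Place IsFunctionField)
open Pool.Agent.Helper36 (step iter iter_add iter_succ iter_zero)
open Pool.Agent.Helper30.TP
open Pool.Agent.Helper63.TK
open Pool.Agent.Helper63.TS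

variable {k K : Type} [Field k] [IsAlgClosed k] [CharZero k] [Field K] [Algebra k K] [Algebra K ℂ]

/-- In the collapse case the critical curve is met along an arithmetic progression. -/
theorem collapse_progression (hK : IsFunctionField k K) {d : ℕ}
    {F : Fin 3 → MvPolynomial (Fin 3) K}
    (hF : IsEndo d fun i => map (algebraMap K ℂ) (F i)) {x : Fin 3 → K} (hx : x ≠ 0)
    (hunb : ∀ B : ℤ, ∃ n, B < ht k (iter F x n))
    (hinf : {n | eval (iter F x n) (jf F) = 0}.Infinite)
    (hcol : ∀ m, ∃ n, (mult F (iter F x m) n).adjugate = 0) :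
    ∃ n₀ N : ℕ, 0 < N ∧ ∀ a, eval (iter F x (n₀ + N * a)) (jf F) = 0 := by
  have hhom := fun i => homog_of_endo hF i
  by_cases hJ0 : jf F = 0
  · exact ⟨0, 1, one_pos, fun a => by rw [hJ0, map_zero]⟩
  obtain ⟨h, D, hh, hirr, hdvd, hinf1⟩ := exists_factor (iter F x) (jf_hom hhom) hJ0 hinf
  obtain ⟨l, hl, hstar⟩ := Pool.Agent.Helper89.TC.collapse_dvd hK hF hx hunb hh hirr hinf1 hcol
  obtain ⟨c, hch⟩ := hinf1.nonempty
  refine ⟨c, l, hl, fun a => ?_⟩
  have hall : eval (iter F x (c + l * a)) h = 0 := by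
    induction a with
    | zero => simpa using hch
    | succ a ih =>
      obtain ⟨Q, hQ⟩ := hstar
      have h1 := congrArg (eval (iter F x (c + l * a))) hQ
      rw [map_mul, ih, zero_mul, eval_cmp_iter, ← iter_add] at h1
      rw [show c + l * (a + 1) = l + (c + l * a) by ring]
      exact h1
  obtain ⟨q', hq'⟩ := hdvd
  rw [hq', map_mul, hall, zero_mul]

/-- If the critical curve is met infinitely often, then it is met along an arithmetic
progression. -/
theorem crit_all (hK : IsFunctionField k K) {d : ℕ} {F : Fin 3 → MvPolynomial (Fin 3) K}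
    (hF : IsEndo d fun i => map (algebraMap K ℂ) (F i)) {x : Fin 3 → K} (hx : x ≠ 0)
    (hunb : ∀ B : ℤ, ∃ n, B < ht k (iter F x n))
    (hinf : {n | eval (iter F x n) (jf F) = 0}.Infinite) :
    ∃ n₀ N : ℕ, 0 < N ∧ ∀ a, eval (iter F x (n₀ + N * a)) (jf F) = 0 := by
  by_cases hadj : ∃ m, ∀ n, (mult F (iter F x m) n).adjugate ≠ 0
  · obtain ⟨m, hm⟩ := hadj
    exact crit_progression hK hF hx hunb hinf hm
  · push Not at hadj
    exact collapse_progression hK hF hx hunb hinf hadj

/-- The Jacobian determinant of the polynomials mapped to a larger field. -/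
theorem jf_mapK {R S : Type} [Field R] [Field S] (φ : R →+* S)
    (F : Fin 3 → MvPolynomial (Fin 3) R) : jf (fun i => map φ (F i)) = map φ (jf F) := by
  unfold jf
  rw [RingHom.map_det]
  congr 1
  ext1 i j
  rw [RingHom.mapMatrix_apply, Matrix.map_apply, Matrix.of_apply, Matrix.of_apply, pderiv_map]

/-- The Jacobian determinant of an endomorphism is not zero. -/
theorem jf_ne_zeroK {K : Type} [Field K] [Algebra K ℂ] {d : ℕ} {F : Fin 3 → MvPolynomial (Fin 3) K}
    (hF : IsEndo d fun i => map (algebraMap K ℂ) (F i)) : jf F ≠ 0 := by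
  intro h
  apply jf_ne_zero hF
  rw [jf_mapK, h, map_zero]

/-- The Dynamical Mordell-Lang property for points of unbounded height over a function field. -/
theorem k_dml {k K : Type} [Field k] [IsAlgClosed k] [Field K] [Algebra k K] [Algebra k ℂ]
    [Algebra K ℂ] [IsScalarTower k K ℂ] (hK : IsFunctionField k K) {d : ℕ}
    {F : Fin 3 → MvPolynomial (Fin 3) K} (hF : IsEndo d fun i => map (algebraMap K ℂ) (F i))
    {x : Fin 3 → K} (hx : x ≠ 0) (hunb : ∀ B : ℤ, ∃ n, B < ht k (iter F x n))
    (c : ℂ) (hc : c ≠ 0) :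
    Pool.Agent.Helper38.Sym.DMLgen (fun i => map (algebraMap K ℂ) (F i))
      (fun i => c * algebraMap K ℂ (x i)) := by
  have hchar : CharZero k := (algebraMap k ℂ).charZero
  by_cases hcrit : {n | eval (iter F x n) (jf F) = 0}.Finite
  · exact tk_dml hK hF hx hunb hcrit c hc
  · obtain ⟨n₀, N, hN, hprog⟩ := crit_all hK hF hx hunb hcrit
    exact Pool.Agent.Helper30.TK2.prog_dml hK hF hx hunb (jf_hom fun i => homog_of_endo hF i)
      (jf_ne_zeroK hF) hN hprog c hc

end Pool.Agent.Helper63.TF

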