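import Pool.Agent.Helper63.TS.Count
import Pool.Agent.Helper47.EN.Ext
import Pool.Agent.Helper30.TP.Star

/-!
# Orbits of bounded height: return sets are detected by finitely many specialisations
-/

set_option autoImplicit false

namespace Pool.Agent.Helper63.TF

open MvPolynomial
open Pool.Agent.Helper16 (Place IsFunctionField)
open Pool.Agent.Helper36 (step iter iter_add iter_succ iter_zero)
open Pool.Agent.Helper30.TP
open Pool.Agent.Helper63.TK
open Pool.Agent.Helper63.TS

variable {k K : Type} [Field k] [IsAlgClosed k] [Field K] [Algebra k K]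

/-- The value of a form at a point specialises. -/
theorem red_zero {b : Place k K} {P : MvPolynomial (Fin 3) K} {p : MvPolynomial (Fin 3) k} {t : ℕ}
    (hP : P.IsHomogeneous t) (hPp : RedP b P p) {y : Fin 3 → K} {z : Fin 3 → k}
    (hy : Red b y z) (h0 : eval y P = 0) : eval z p = 0 := by
  obtain ⟨-, c, -, hc⟩ := hy
  have h1 := hPp.eval (u := c • y) (z := z) hc
  rw [eval_smul_hom hP, h0, mul_zero, zero_sub, Valuation.map_neg] at h1
  by_contra h2
  rw [Star_val_unit b h2] at h1
  exact lt_irrefl _ h1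

/-- If the heights of the points of the orbit are bounded then finitely many specialisations
detect the zeros of finitely many forms at the points of the orbit. -/
theorem detect [Algebra K ℂ] (hK : IsFunctionField k K) {d : ℕ} {F : Fin 3 → MvPolynomial (Fin 3) K}
    (hF : IsEndo d fun i => map (algebraMap K ℂ) (F i)) {x : Fin 3 → K} (hx : x ≠ 0)
    {B : ℤ} (hB : ∀ n, ht k (iter F x n) ≤ B)
    (G : Finset (MvPolynomial (Fin 3) K)) (hG : ∀ P ∈ G, ∃ e, P.IsHomogeneous e) :
    ∃ (T : Finset (Place k K)) (f : Place k K → Fin 3 → MvPolynomial (Fin 3) k)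
      (z : Place k K → Fin 3 → k) (g : Place k K → MvPolynomial (Fin 3) K → MvPolynomial (Fin 3) k),
      (∀ b ∈ T, GoodRed d b F (f b) ∧ Red b x (z b) ∧
        ∀ P ∈ G, RedP b P (g b P) ∧ ∀ e, P.IsHomogeneous e → (g b P).IsHomogeneous e) ∧
      ∀ n, (∀ P ∈ G, eval (iter F x n) P = 0) ↔
        ∀ b ∈ T, ∀ P ∈ G, eval (iter (f b) (z b) n) (g b P) = 0 := by
  classical
  have hhom : ∀ i, (F i).IsHomogeneous d := by
    intro i m hm
    refine hF.hom i ?_
    rw [coeff_map]
    simpa using hm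
  have hx0 : ∀ n, iter F x n ≠ 0 := fun n => iter_ne_zeroK hF hx n
  -- the number of zeros is bounded
  have h1 : ∀ P ∈ G, ∃ M : ℕ, ∀ n, eval (iter F x n) P ≠ 0 →
      (zset (k := k) P (iter F x n)).Finite ∧ (zset (k := k) P (iter F x n)).ncard ≤ M := by
    intro P hP
    obtain ⟨e, he⟩ := hG P hP
    obtain ⟨C, hC, hcount⟩ := count_red hK he
    refine ⟨((e : ℤ) * B + C).toNat, fun n hn => ?_⟩
    obtain ⟨h2, h3⟩ := hcount _ (hx0 n) hn
    refine ⟨h2, ?_⟩
    have h4 : (e : ℤ) * ht k (iter F x n) ≤ e * B :=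
      mul_le_mul_of_nonneg_left (hB n) (Int.natCast_nonneg e)
    have h5 : (((zset (k := k) P (iter F x n)).ncard : ℕ) : ℤ) ≤ (e : ℤ) * B + C := by linarith
    have h6 := Int.self_le_toNat ((e : ℤ) * B + C)
    omega
  choose! M hM using h1
  set M₀ := ∑ P ∈ G, M P with hM₀
  have hMle : ∀ P ∈ G, M P ≤ M₀ := fun P hP =>
    Finset.single_le_sum (f := M) (fun _ _ => Nat.zero_le _) hP
  -- the good places
  have hinf : Infinite (Place k K) := Pool.Agent.Helper47.EN.infinite_place hK
  set bad : Set (Place k K) := {b | ¬ Good d b F} ∪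
    ⋃ P ∈ G, {b : Place k K | ¬ ∀ m, b.val (P.coeff m) ≤ 1} with hbad
  have hbadfin : bad.Finite := by
    refine (good_finite hK hF).union (Set.Finite.biUnion (Finset.finite_toSet G) fun P _ => ?_)
    exact Good2_fin hK P
  obtain ⟨T, hT, hTcard⟩ := hbadfin.infinite_compl.exists_subset_card_eq (M₀ + 1)
  have hgood : ∀ b : Place k K, ∃ f, b ∉ bad → GoodRed d b F f := by
    intro b
    by_cases hb : b ∈ bad
    · exact ⟨fun _ => 0, fun h => absurd hb h⟩
    · have h2 : Good d b F := by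
        by_contra h3
        exact hb (Or.inl h3)
      obtain ⟨f, hf⟩ := h2
      exact ⟨f, fun _ => hf⟩
  choose f hf using hgood
  have hz : ∀ b : Place k K, ∃ z : Fin 3 → k, Red b x z := fun b => exists_red hK b x hx
  choose z hz using hz
  have hg : ∀ (b : Place k K) (P : MvPolynomial (Fin 3) K), ∃ p, b ∉ bad → P ∈ G →
      RedP b P p ∧ ∀ e, P.IsHomogeneous e → p.IsHomogeneous e := by
    intro b P
    by_cases hb : b ∉ bad ∧ P ∈ G
    · obtain ⟨hb, hP⟩ := hb
      obtain ⟨e, he⟩ := hG P hP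
      have h2 : ∀ m, b.val (P.coeff m) ≤ 1 := by
        by_contra h3
        exact hb (Or.inr (Set.mem_iUnion₂.2 ⟨P, hP, h3⟩))
      obtain ⟨p, hp, -⟩ := redP_exists hK b he h2
      refine ⟨p, fun _ _ => ⟨hp, fun e' he' => ?_⟩⟩
      obtain ⟨p', hp', hp'e⟩ := redP_exists hK b he' h2
      rw [hp.unique hp']
      exact hp'e
    · refine ⟨0, fun h2 h3 => absurd ⟨h2, h3⟩ hb⟩
  choose g hg using hg
  refine ⟨T, f, z, g, fun b hb => ⟨hf b (hT hb), hz b, fun P hP => hg b P (hT hb) hP⟩,
    fun n => ⟨fun h b hb P hP => ?_, fun h P hP => ?_⟩⟩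
  · obtain ⟨e, he⟩ := hG P hP
    exact red_zero he (hg b P (hT hb) hP).1 ((hf b (hT hb)).iter hhom (hz b) n) (h P hP)
  · by_contra hne
    obtain ⟨hfin, hcard⟩ := hM P hP n hne
    have h2 : (T : Set (Place k K)) ⊆ zset (k := k) P (iter F x n) := by
      intro b hb
      have hb' : b ∈ T := hb
      exact ⟨g b P, iter (f b) (z b) n, (hg b P (hT hb) hP).1,
        (hf b (hT hb)).iter hhom (hz b) n, h b hb' P hP⟩
    have h3 := Set.ncard_le_ncard h2 hfin
    rw [Set.ncard_coe_finset, hTcard] at h3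
    have h4 := hMle P hP
    omega

end Pool.Agent.Helper63.TF
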